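import Pool.Agent.W953.PD.Num

/-!
# 2DPDAHEADS(1) against nondeterministic networks with few negations on few slices

An accepting computation of a nondeterministic two-way `k`-head automaton on words of length `n` is
a path in a directed graph with `O(n ^ k)` nodes, whose edges are labelled by literals. Here
computations in rounds are considered whose tests are directed networks with labelled edges, but
without negations; every round depends on the answers of the earlier rounds, and the `cost` is the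
maximum of the product of the numbers (number of tests of the round) + 1, so that `t` tests one
after the other (`t` NOT gates) have cost `2 ^ t`.

There is a language `L` of a deterministic two-way pushdown automaton with one head such that for
every `n` and some tags of the `n` positions `L` is monotone in the `n` bits, but computations of
cost `M` and size `n ^ c` do not agree with `L` on the inputs with between `k` and `k + U` ones, as
long as `M (log n) ^ 2 (log log n) ^ 8` is small against `U ≤ n - k`, and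
`M (log n) ^ 4 (log log n) ^ 16` is small against `n`. For `c > 2` this includes two heads.

Earlier (`FewNegations`): the factor is `(ℓ + 1) ^ 56` for size `2 ^ ℓ`, all inputs.
-/

set_option autoImplicit false

namespace Pool.Agent.Results.MP_d0a708_lc.DirectedOnSlices

open Pool.Agent.W953.SP Pool.Agent.W953.SR Pool.Agent.W953.NB Pool.Agent.H541R2

/-- the number of ones of an input -/
def ones {n : ℕ} (x : Fin n → Bool) : ℕ := (Finset.univ.filter (fun i => x i = true)).card

/-- the word with the tags `t` and the bits `x` is in `L` -/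
def Word {Tag : Type} (L : Set (List (Tag × Bool))) {n : ℕ} (t : Fin n → Tag)
    (x : Fin n → Bool) : Prop :=
  List.ofFn (fun i => (t i, x i)) ∈ L

/-- For some tags `t` of the positions, `L` is monotone in the `n` bits, and no computation in
rounds of cost at most `M`, in which the directed networks that are asked on any path have total
size at most `s`, agrees with `L` on the inputs with at least `k` and at most `k + U` ones, for any
`k ≤ n - U`. -/
def HardOnSlices {Tag : Type} (L : Set (List (Tag × Bool))) (n U M s : ℕ) : Prop :=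
  ∃ t : Fin n → Tag, (∀ x y : Fin n → Bool, x ≤ y → Word L t x → Word L t y) ∧
    ∀ k, k + U ≤ n → ∀ p : Prog (Net (Fin n)), p.cost ≤ M → p.load (dnetTests _) ≤ s →
      ∃ x, k ≤ ones x ∧ ones x ≤ k + U ∧ ¬ (p.Acc (dnetTests _) x ↔ Word L t x)

/-- the function `2 ^ 42 D (log D + 6) ^ 8`, for `D + 1` -/
def q (D : ℕ) : ℕ := 2 ^ 42 * (D + 1) * (Nat.log 2 (D + 1) + 6) ^ 8

/-- `m ^ 2 (log m + 1) ^ 8` -/
def sq (m : ℕ) : ℕ := m * (m * (Nat.log 2 m + 1) ^ 8)

/-- One language of a two-way deterministic pushdown automaton with one head. (1) Let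
`(ℓ + 3) ^ 2 ≤ 2 D + 1`. For `M ≥ 1`, `5 M q(D) ≤ U ≤ n` and `45 M q(D) ^ 2 ≤ n` it is hard for
cost `M` and size `2 ^ ℓ`. (2) For every `c` there is `C` such that it is hard for cost `M ≥ 1` and
size `n ^ c` if `M C sq(log n + 1) ≤ U ≤ n` and `M C sq(log n + 1) ^ 2 ≤ n`. -/
theorem result : ∃ (Tag : Type) (_ : Fintype Tag) (L : Set (List (Tag × Bool))), TwoDPDA L ∧
    (∀ ℓ D M U n : ℕ, (ℓ + 3) ^ 2 ≤ 2 * D + 1 → 1 ≤ M → 5 * M * q D ≤ U → U ≤ n →
      45 * M * q D ^ 2 ≤ n → HardOnSlices L n U M (2 ^ ℓ)) ∧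
    ∀ c : ℕ, ∃ C : ℕ, ∀ M U n : ℕ, 1 ≤ M → M * C * sq (Nat.log 2 n + 1) ≤ U → U ≤ n →
      M * C * sq (Nat.log 2 n + 1) ^ 2 ≤ n → HardOnSlices L n U M (n ^ c) := by
  have main : ∀ ℓ D M U n : ℕ, (ℓ + 3) ^ 2 ≤ 2 * D + 1 → 1 ≤ M → 5 * M * q D ≤ U → U ≤ n →
      45 * M * q D ^ 2 ≤ n → HardOnSlices Pool.Agent.H257R4.TP.LL n U M (2 ^ ℓ) := by
    intro ℓ D M U n hD hM hU hUn hn
    have hpow : 2 ^ (ℓ ^ 2 + 5 * ℓ + 7) * 2 ^ ℓ < 4 ^ (D + 1) := by
      have h4 : (4 : ℕ) ^ (D + 1) = 2 ^ (2 * (D + 1)) := by rw [pow_mul]; norm_num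
      rw [h4, ← pow_add]
      apply Nat.pow_lt_pow_right (by norm_num)
      have : (ℓ + 3) ^ 2 = ℓ ^ 2 + 6 * ℓ + 9 := by ring
      omega
    have hsp : RankTests (spTests (Fin n)) := by
      intro P
      exact ⟨P.F, inferInstance, fun X Y _ _ _ _ A α β U _ hU hβ m hm =>
        P.rank_le A α β U hU hβ m hm⟩
    obtain ⟨t, h1, h2⟩ := Pool.Agent.W953.PD.pda_hard.{1} D M U n hM hU hUn hn
    refine ⟨t, fun x y hxy hx => h1 x y (fun i hi => ?_) hx, fun k hk p hcost hp => ?_⟩
    · have := hxy i
      rw [hi] at this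
      exact top_le_iff.mp this
    · obtain ⟨g, hg⟩ := exists_toMSP (I := Fin n) ℓ
      obtain ⟨x, x1, x2, x3⟩ := h2 _ (spTests (Fin n)) hsp (spTests_mono _) k hk (p.map g)
        (by rw [Prog.map_cost]; exact hcost)
        (lt_of_le_of_lt (Prog.map_load (dnetTests _) (spTests _) g _ (2 ^ ℓ)
          (fun P hP => (hg P hP).1) p hp) (lt_of_le_of_lt (Nat.mul_le_mul_left _ hp) hpow))
      refine ⟨x, x1, x2, fun hx => x3 ?_⟩
      refine Iff.trans ?_ hx
      exact Prog.map_acc (dnetTests _) (spTests _) g (2 ^ ℓ) x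
        (fun P hP => (hg P hP).2 x) p hp
  refine ⟨Pool.Agent.H257R4.TP.Tag, inferInstance, Pool.Agent.H257R4.TP.LL,
    ⟨Pool.Agent.H257R4.TP.St, Pool.Agent.H257R4.TP.Sy, inferInstance, inferInstance,
      Pool.Agent.H257R4.TP.del, .q0, {.acc}, fun w => Iff.rfl⟩, main, fun c => ?_⟩
  obtain ⟨C, hC⟩ := Pool.Agent.W953.PD.num_dir c
  refine ⟨C, fun M U n hM hU hUn hn => ?_⟩
  obtain ⟨D, ℓ, d1, d2, d3, d4⟩ := hC n
  obtain ⟨t, h1, h2⟩ := main ℓ D M U n d2 hM (by
      refine le_trans ?_ hU
      calc 5 * M * q D = M * (5 * W953.PT.vno D) := by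
            show 5 * M * W953.PT.vno D = _
            ring
        _ ≤ M * (C * ((Nat.log 2 n + 1) * W953.PD.nl (Nat.log 2 n + 1))) :=
            Nat.mul_le_mul_left _ d3
        _ = M * C * sq (Nat.log 2 n + 1) := by
            show _ = M * C * ((Nat.log 2 n + 1) * W953.PD.nl (Nat.log 2 n + 1))
            ring) hUn (by
      refine le_trans ?_ hn
      calc 45 * M * q D ^ 2 = M * (45 * W953.PT.vno D ^ 2) := by
            show 45 * M * W953.PT.vno D ^ 2 = _
            ring
        _ ≤ M * (C * ((Nat.log 2 n + 1) * W953.PD.nl (Nat.log 2 n + 1)) ^ 2) :=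
            Nat.mul_le_mul_left _ d4
        _ = M * C * sq (Nat.log 2 n + 1) ^ 2 := by
            show _ = M * C * ((Nat.log 2 n + 1) * W953.PD.nl (Nat.log 2 n + 1)) ^ 2
            ring)
  exact ⟨t, h1, fun k hk p hcost hload => h2 k hk p hcost (hload.trans d1)⟩

end Pool.Agent.Results.MP_d0a708_lc.DirectedOnSlices
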